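import Mathlib

/-!
# Median graphs without 3-cubes: elementary facts
-/

set_option autoImplicit false

namespace Pool.Agent.N47.SQ

open Function

variable {V : Type*} {Γ : SimpleGraph V}

/-- median graphs -/
def IsMedian (Γ : SimpleGraph V) : Prop :=
  Γ.Connected ∧ ∀ a b c : V, ∃! m : V,
    Γ.dist a m + Γ.dist m b = Γ.dist a b ∧ Γ.dist b m + Γ.dist m c = Γ.dist b c ∧
      Γ.dist a m + Γ.dist m c = Γ.dist a c

/-- the graph contains no 3-cube -/
def NoThreeCube (Γ : SimpleGraph V) : Prop :=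
  ¬ ∃ c : (Fin 3 → Bool) → V, Injective c ∧ ∀ s i, Γ.Adj (c s) (c (update s i (!s i)))

theorem IsMedian.tri (hΓ : IsMedian Γ) (a b c : V) : Γ.dist a c ≤ Γ.dist a b + Γ.dist b c :=
  hΓ.1.dist_triangle

theorem adj_iff (a b : V) : Γ.dist a b = 1 ↔ Γ.Adj a b := SimpleGraph.dist_eq_one_iff_adj

theorem IsMedian.eq_iff (hΓ : IsMedian Γ) (a b : V) : Γ.dist a b = 0 ↔ a = b :=
  hΓ.1.dist_eq_zero_iff

theorem dcomm (a b : V) : Γ.dist a b = Γ.dist b a := SimpleGraph.dist_comm

/-- adjacent vertices have distances from any vertex that differ by one -/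
theorem IsMedian.ne_dist (hΓ : IsMedian Γ) {a b : V} (h : Γ.Adj a b) (v : V) :
    Γ.dist v a = Γ.dist v b + 1 ∨ Γ.dist v b = Γ.dist v a + 1 := by
  obtain ⟨m, ⟨h1, h2, h3⟩, _⟩ := hΓ.2 a b v
  rw [(adj_iff a b).2 h] at h1
  have e1 := dcomm (Γ := Γ) v a
  have e2 := dcomm (Γ := Γ) v b
  have e3 := dcomm (Γ := Γ) m b
  rcases Nat.eq_zero_or_pos (Γ.dist a m) with h0 | h0
  · have := (hΓ.eq_iff a m).1 h0
    subst this
    omega
  · have h4 : Γ.dist m b = 0 := by omega
    have := (hΓ.eq_iff m b).1 h4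
    subst this
    omega

/-- different neighbours of a vertex have distance two -/
theorem IsMedian.dist_two (hΓ : IsMedian Γ) {p a b : V} (h1 : Γ.Adj p a) (h2 : Γ.Adj p b)
    (h : a ≠ b) : Γ.dist a b = 2 := by
  have h3 := hΓ.ne_dist h2 a
  have h4 := (adj_iff p a).2 h1
  rw [dcomm] at h4
  have h5 : Γ.dist a b ≠ 0 := fun h0 => h ((hΓ.eq_iff a b).1 h0)
  omega

/-- two vertices have at most two common neighbours -/
theorem IsMedian.common_nbr (hΓ : IsMedian Γ) {p r a b c : V} (ha : Γ.Adj p a) (hb : Γ.Adj p b)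
    (hc : Γ.Adj p c) (ha' : Γ.Adj r a) (hb' : Γ.Adj r b) (hc' : Γ.Adj r c) (hab : a ≠ b)
    (hbc : b ≠ c) (hac : a ≠ c) : p = r := by
  obtain ⟨m, _, hm⟩ := hΓ.2 a b c
  have key : ∀ q : V, Γ.Adj q a → Γ.Adj q b → Γ.Adj q c → q = m := by
    intro q h1 h2 h3
    apply hm
    have e1 := (adj_iff q a).2 h1
    have e2 := (adj_iff q b).2 h2
    have e3 := (adj_iff q c).2 h3
    have e1' := e1; rw [dcomm] at e1'
    have e2' := e2; rw [dcomm] at e2'
    rw [e1', e2, e2', e3, hΓ.dist_two h1 h2 hab, hΓ.dist_two h2 h3 hbc, hΓ.dist_two h1 h3 hac]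
    simp
  rw [key p ha hb hc, key r ha' hb' hc']

/-- quadrangle condition -/
theorem IsMedian.quad (hΓ : IsMedian Γ) {v p q r : V} (hp : Γ.Adj q p) (hr : Γ.Adj q r)
    (hpr : p ≠ r) (h1 : Γ.dist v q = Γ.dist v p + 1) (h2 : Γ.dist v q = Γ.dist v r + 1) :
    ∃ s, Γ.Adj p s ∧ Γ.Adj r s ∧ Γ.dist v p = Γ.dist v s + 1 := by
  obtain ⟨s, ⟨h3, h4, h5⟩, _⟩ := hΓ.2 p r v
  rw [hΓ.dist_two hp hr hpr] at h3
  have e1 := dcomm (Γ := Γ) v p
  have e2 := dcomm (Γ := Γ) v r
  have e3 := dcomm (Γ := Γ) v s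
  have e4 := dcomm (Γ := Γ) s r
  refine ⟨s, (adj_iff _ _).1 (by omega), (adj_iff _ _).1 (by omega), by omega⟩

/-- the cube with given vertices -/
def cube (c p q r spq spr sqr w : V) (x y z : Bool) : V :=
  match x, y, z with
  | false, false, false => c
  | true, false, false => p
  | false, true, false => q
  | false, false, true => r
  | true, true, false => spq
  | true, false, true => spr
  | false, true, true => sqr
  | true, true, true => w

/-- three edges at a vertex which pairwise span squares span a 3-cube -/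
theorem no_three (hΓ : IsMedian Γ) (h3 : NoThreeCube Γ) {c p q r spq spr sqr : V}
    (hp : Γ.Adj c p) (hq : Γ.Adj c q) (hr : Γ.Adj c r) (hpq : p ≠ q) (hpr : p ≠ r) (hqr : q ≠ r)
    (h1 : Γ.Adj p spq) (h2 : Γ.Adj q spq) (h12 : spq ≠ c)
    (h4 : Γ.Adj p spr) (h5 : Γ.Adj r spr) (h45 : spr ≠ c)
    (h6 : Γ.Adj q sqr) (h7 : Γ.Adj r sqr) (h67 : sqr ≠ c) : False := by
  -- distances from `c`
  have d0 : Γ.dist c c = 0 := by simp
  have dp := (adj_iff c p).2 hp
  have dq := (adj_iff c q).2 hq
  have dr := (adj_iff c r).2 hr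
  have two : ∀ {a s : V}, Γ.Adj c a → Γ.Adj a s → s ≠ c → Γ.dist c s = 2 := fun ha hs hne =>
    hΓ.dist_two ha.symm hs hne.symm
  have d1 := two hp h1 h12
  have d2 := two hp h4 h45
  have d3 := two hq h6 h67
  -- the vertices of level two are different
  have n1 : spq ≠ spr := by
    intro e
    rw [← e] at h5
    exact h12 (hΓ.common_nbr h1.symm h2.symm h5.symm hp hq hr hpq hqr hpr)
  have n2 : spq ≠ sqr := by
    intro e
    rw [← e] at h7
    exact h12 (hΓ.common_nbr h1.symm h2.symm h7.symm hp hq hr hpq hqr hpr)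
  have n3 : spr ≠ sqr := by
    intro e
    rw [← e] at h6
    exact h45 (hΓ.common_nbr h4.symm h6.symm h5.symm hp hq hr hpq hqr hpr)
  have t1 := hΓ.dist_two h1 h4 n1
  have t2 := hΓ.dist_two h2 h6 n2
  have t3 := hΓ.dist_two h5 h7 n3
  obtain ⟨w, ⟨w1, w2, w3⟩, _⟩ := hΓ.2 spq spr sqr
  rw [t1] at w1
  rw [t3] at w2
  rw [t2] at w3
  have e1 := dcomm (Γ := Γ) spr w
  have e2 := dcomm (Γ := Γ) sqr w
  have a1 : Γ.Adj spq w := (adj_iff _ _).1 (by omega)
  have a2 : Γ.Adj spr w := (adj_iff _ _).1 (by omega)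
  have a3 : Γ.Adj sqr w := (adj_iff _ _).1 (by omega)
  have dw : Γ.dist c w = 3 := by
    rcases hΓ.ne_dist a1 c with h | h
    · exfalso
      have hcw : Γ.Adj c w := (adj_iff c w).1 (by omega)
      have f1 : w = p ∨ w = q := by
        by_contra hne
        push Not at hne
        exact h12 (hΓ.common_nbr h1.symm h2.symm a1 hp hq hcw hpq (Ne.symm hne.2) (Ne.symm hne.1))
      have f2 : w = p ∨ w = r := by
        by_contra hne
        push Not at hne
        exact h45 (hΓ.common_nbr h4.symm h5.symm a2 hp hr hcw hpr (Ne.symm hne.2) (Ne.symm hne.1))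
      have f3 : w = q ∨ w = r := by
        by_contra hne
        push Not at hne
        exact h67 (hΓ.common_nbr h6.symm h7.symm a3 hq hr hcw hqr (Ne.symm hne.2) (Ne.symm hne.1))
      rcases f1 with rfl | rfl
      · rcases f3 with h | h
        · exact hpq h
        · exact hpr h
      · rcases f2 with h | h
        · exact hpq h.symm
        · exact hqr h
    · omega
  refine h3 ⟨fun s => cube c p q r spq spr sqr w (s 0) (s 1) (s 2), ?_, ?_⟩
  · have hinj : ∀ x y z x' y' z' : Bool, cube c p q r spq spr sqr w x y z =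
        cube c p q r spq spr sqr w x' y' z' → x = x' ∧ y = y' ∧ z = z' := by
      intro x y z x' y' z' h
      have hd : Γ.dist c (cube c p q r spq spr sqr w x y z) =
        Γ.dist c (cube c p q r spq spr sqr w x' y' z') := by rw [h]
      cases x <;> cases y <;> cases z <;> cases x' <;> cases y' <;> cases z' <;>
        first
          | exact ⟨rfl, rfl, rfl⟩
          | (exfalso; simp only [cube, d0, dp, dq, dr, d1, d2, d3, dw] at hd; omega)
          | exact absurd h hpq
          | exact absurd h hpr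
          | exact absurd h hqr
          | exact absurd h.symm hpq
          | exact absurd h.symm hpr
          | exact absurd h.symm hqr
          | exact absurd h n1
          | exact absurd h n2
          | exact absurd h n3
          | exact absurd h.symm n1
          | exact absurd h.symm n2
          | exact absurd h.symm n3
    intro s t hst
    obtain ⟨k1, k2, k3⟩ := hinj _ _ _ _ _ _ hst
    funext i
    fin_cases i
    · exact k1
    · exact k2
    · exact k3
  · intro s i
    have hadj : ∀ x y z : Bool,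
        Γ.Adj (cube c p q r spq spr sqr w x y z) (cube c p q r spq spr sqr w (!x) y z) ∧
        Γ.Adj (cube c p q r spq spr sqr w x y z) (cube c p q r spq spr sqr w x (!y) z) ∧
        Γ.Adj (cube c p q r spq spr sqr w x y z) (cube c p q r spq spr sqr w x y (!z)) := by
      intro x y z
      cases x <;> cases y <;> cases z <;> simp only [cube, Bool.not_false, Bool.not_true] <;>
        refine ⟨?_, ?_, ?_⟩ <;>
        first | assumption | (apply SimpleGraph.Adj.symm; assumption)
    fin_cases i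
    · simpa using (hadj (s 0) (s 1) (s 2)).1
    · simpa using (hadj (s 0) (s 1) (s 2)).2.1
    · simpa using (hadj (s 0) (s 1) (s 2)).2.2

end Pool.Agent.N47.SQ
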