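import Pool.Agent.N47.SQ.Sys

/-!
# Families of flats which are deterministic in one direction
-/

set_option autoImplicit false

namespace Pool.Agent.N47.SQ

open Function Set

/-- commuting elements which generate `ℤ²` -/
theorem z2_of {V : Type*} {G : Type*} [Group G] [MulAction G V] {t z : G} (hc : Commute t z)
    (W : Set V) (h1 : ∀ v ∈ W, t • v ∈ W) {p : V} (hp : p ∈ W) (hp' : t⁻¹ • p ∉ W)
    (h3 : ∀ v, v ∈ W ↔ z • v ∈ W) (hz : ∀ n : ℕ, 0 < n → z ^ n ≠ 1) :
    ∃ φ : Multiplicative (ℤ × ℤ) →* G, Injective φ := by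
  have ht : ∀ (n : ℕ) (v : V), v ∈ W → t ^ n • v ∈ W := by
    intro n
    induction n with
    | zero => intro v hv; simpa using hv
    | succ n ih => intro v hv; rw [pow_succ, mul_smul]; exact ih _ (h1 v hv)
  have hzn : ∀ (n : ℕ) (v : V), v ∈ W ↔ z ^ n • v ∈ W := by
    intro n
    induction n with
    | zero => intro v; simp
    | succ n ih => intro v; rw [pow_succ, mul_smul, ← ih, ← h3]
  have hzz : ∀ (n : ℤ) (v : V), v ∈ W ↔ z ^ n • v ∈ W := by
    intro n v
    rcases Int.eq_nat_or_neg n with ⟨m, rfl | rfl⟩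
    · rw [zpow_natCast]; exact hzn m v
    · rw [hzn m (z ^ (-(m : ℤ)) • v), ← mul_smul, ← zpow_natCast, ← zpow_add]; simp
  have key : ∀ (n : ℕ) (b : ℤ), t ^ (n + 1) * z ^ b ≠ 1 := by
    intro n b h
    apply hp'
    have e : t⁻¹ = t ^ n * z ^ b := by
      rw [inv_eq_iff_mul_eq_one, ← mul_assoc, ← pow_succ']; exact h
    rw [e, mul_smul]
    exact ht n _ ((hzz b p).1 hp)
  have key2 : ∀ a b : ℤ, t ^ a * z ^ b = 1 → a = 0 ∧ b = 0 := by
    intro a b h
    have ha : a = 0 := by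
      rcases lt_trichotomy a 0 with h0 | h0 | h0
      · exfalso
        obtain ⟨n, hn⟩ := Int.eq_ofNat_of_zero_le (show 0 ≤ -a - 1 by omega)
        apply key n (-b)
        have e : t ^ (-a) * z ^ (-b) = 1 := by
          rw [zpow_neg, zpow_neg, ← mul_inv_rev, (hc.zpow_zpow a b).eq.symm, h, inv_one]
        rw [← zpow_natCast]
        rw [show ((n + 1 : ℕ) : ℤ) = -a by push_cast; omega]
        exact e
      · exact h0
      · exfalso
        obtain ⟨n, hn⟩ := Int.eq_ofNat_of_zero_le (show 0 ≤ a - 1 by omega)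
        apply key n b
        rw [← zpow_natCast]
        rw [show ((n + 1 : ℕ) : ℤ) = a by push_cast; omega]
        exact h
    refine ⟨ha, ?_⟩
    rw [ha, zpow_zero, one_mul] at h
    by_contra hb
    rcases lt_or_gt_of_ne hb with h0 | h0
    · obtain ⟨n, hn⟩ := Int.eq_ofNat_of_zero_le (show 0 ≤ -b by omega)
      apply hz n (by omega)
      rw [← zpow_natCast, ← hn, zpow_neg, h, inv_one]
    · obtain ⟨n, hn⟩ := Int.eq_ofNat_of_zero_le (show 0 ≤ b by omega)
      apply hz n (by omega)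
      rw [← zpow_natCast, ← hn, h]
  refine ⟨{ toFun := fun m => t ^ (Multiplicative.toAdd m).1 * z ^ (Multiplicative.toAdd m).2
            map_one' := by simp
            map_mul' := ?_ }, ?_⟩
  · intro m m'
    simp only [toAdd_mul, Prod.fst_add, Prod.snd_add, zpow_add]
    have := (hc.zpow_zpow (Multiplicative.toAdd m').1 (Multiplicative.toAdd m).2).eq
    rw [mul_assoc, mul_assoc, ← mul_assoc (t ^ (Multiplicative.toAdd m').1), this, mul_assoc]
  · rw [injective_iff_map_eq_one]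
    intro m hm
    obtain ⟨h1, h2⟩ := key2 _ _ hm
    exact Multiplicative.toAdd.injective (Prod.ext h1 h2)

variable {V : Type*} {G : Type*} [Group G] [MulAction G V] {Γ : SimpleGraph V}

theorem par (hΓ : IsMedian Γ) {f : ℤ × ℤ → V} (hf : IsFlat Γ f) {v : V} {x : ℤ} {y : ℤ} (y' : ℤ)
    (h : Γ.dist v (f (x + 1, y)) < Γ.dist v (f (x, y))) :
    Γ.dist v (f (x + 1, y')) < Γ.dist v (f (x, y')) := by
  have step : ∀ a b : ℤ, |a - b| = 1 → Γ.dist v (f (x + 1, a)) < Γ.dist v (f (x, a)) →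
      Γ.dist v (f (x + 1, b)) < Γ.dist v (f (x, b)) := by
    intro a b hab h
    refine parallel hΓ (hf.adj (by simp)) (hf.adj (by simp)) (hf.adj (by simp [hab]))
      (hf.adj (by simp [hab])) ?_ ?_ h
    · intro h
      have := hf.inj h
      simp only [Prod.mk.injEq] at this
      omega
    · intro h
      have := hf.inj h
      simp only [Prod.mk.injEq] at this
      omega
  rcases le_total y y' with hl | hl
  · induction y', hl using Int.leInduction with
    | base => exact h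
    | succ n _ ih => exact step n (n + 1) (by simp) ih
  · induction y', hl using Int.leInductionDown with
    | base => exact h
    | pred n _ ih => exact step n (n - 1) (by simp) ih

theorem Sys.repeat (hA : Act G Γ) {L : Set (ℤ × ℤ → V)} (hL : Sys G Γ L) {f : ℤ × ℤ → V}
    (hf : f ∈ L) (p : ℕ → ℤ × ℤ) (S : ℕ) : ∃ i j : ℕ, i < j ∧ ∃ g : G, ∀ z : ℤ × ℤ,
      z.1.natAbs ≤ S → z.2.natAbs ≤ S → g • f (z + p i) = f (z + p j) := by
  obtain ⟨h', _, _, _, hlim⟩ := hL.limit hA (fun n z => f (z + p n))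
    (fun n z => f (z + p n)) (fun n => by simpa using hL.mv f hf 1 (p n))
    (fun n => by simpa using hL.mv f hf 1 (p n)) (fun _ => rfl)
  obtain ⟨i, _, gi, hi⟩ := hlim S 0
  obtain ⟨j, hj0, gj, hj⟩ := hlim S (i + 1)
  refine ⟨i, j, by omega, gj⁻¹ * gi, fun z h1 h2 => ?_⟩
  rw [mul_smul, ← (hi z h1 h2).1, (hj z h1 h2).1, inv_smul_smul]

theorem pow_tr {f : ℤ × ℤ → V} {g : G} {x Y : ℤ} {τ : ℕ}
    (h : ∀ y, Y ≤ y → g • f (x, y) = f (x, y + τ)) (n : ℕ) :
    ∀ y, Y ≤ y → g ^ n • f (x, y) = f (x, y + (n * τ : ℕ)) := by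
  induction n with
  | zero => intro y _; simp
  | succ n ih =>
    intro y hy
    rw [pow_succ, mul_smul, h y hy, ih _ (by omega)]
    congr 2
    push_cast
    ring

theorem pow_eq (hA : Act G Γ) {f : ℤ × ℤ → V} {a b : G} {x Y : ℤ} {T : ℕ}
    (h1 : ∀ y, Y ≤ y → a • f (x, y) = f (x, y + T))
    (h2 : ∀ y, Y ≤ y → b • f (x, y) = f (x, y + T)) : ∃ k : ℕ, 0 < k ∧ a ^ k = b ^ k := by
  have hmem : ∀ n : ℕ, (b ^ n)⁻¹ * a ^ n ∈ {g : G | g • f (x, Y) = f (x, Y)} := by
    intro n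
    simp only [Set.mem_ofPred_eq]
    rw [mul_smul, inv_smul_eq_iff, pow_tr h1 n Y le_rfl, pow_tr h2 n Y le_rfl]
  obtain ⟨n, -, m, -, hne, heq⟩ := Set.infinite_univ.exists_ne_map_eq_of_mapsTo
    (f := fun n : ℕ => (b ^ n)⁻¹ * a ^ n) (fun n _ => hmem n) (hA.stab _)
  wlog hlt : n < m generalizing n m
  · exact this m n hne.symm heq.symm (by omega)
  obtain ⟨d, rfl⟩ := Nat.exists_eq_add_of_lt hlt
  refine ⟨d + 1, by omega, ?_⟩
  have e : (b ^ n)⁻¹ * a ^ n = (b ^ n)⁻¹ * ((b ^ (d + 1))⁻¹ * a ^ (d + 1)) * a ^ n := by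
    have h := heq
    rw [show n + d + 1 = (d + 1) + n by ring, pow_add b, pow_add a, mul_inv_rev] at h
    rw [h]
    simp only [mul_assoc]
  have e2 : (b ^ (d + 1))⁻¹ * a ^ (d + 1) = 1 := by
    have h := mul_right_cancel e
    exact (mul_eq_left.1 h.symm)
  exact (inv_mul_eq_one.1 e2).symm

/-- the hypothesis of determinism in the direction up -/
def DetUp (L : Set (ℤ × ℤ → V)) (R : ℕ) : Prop :=
  ∀ h ∈ L, ∀ k ∈ L, (∀ x y : ℤ, x.natAbs ≤ R → -R ≤ y → y ≤ 0 → h (x, y) = k (x, y)) →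
    h (0, 1) = k (0, 1)

theorem spread (hA : Act G Γ) {L : Set (ℤ × ℤ → V)} (hL : Sys G Γ L) {R : ℕ} (hdet : DetUp L R)
    {h k : ℤ × ℤ → V} (hh : h ∈ L) (hk : k ∈ L) (c b : ℤ)
    (hag : ∀ x y : ℤ, c - R ≤ x → x ≤ c + R → b - R ≤ y → y ≤ b → h (x, y) = k (x, y)) :
    ∀ x y : ℤ, c - R ≤ x → x ≤ c + R → b - R ≤ y → h (x, y) = k (x, y) := by
  have key : ∀ n : ℕ, ∀ x y : ℤ, c - R ≤ x → x ≤ c + R → b - R ≤ y → y ≤ b + n →
      h (x, y) = k (x, y) := by
    intro n
    induction n with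
    | zero => intro x y h1 h2 h3 h4; exact hag x y h1 h2 h3 (by simpa using h4)
    | succ n ih =>
      have e := hdet _ (hL.mv h hh 1 (c, b + n)) _ (hL.mv k hk 1 (c, b + n)) (by
        intro x y h1 h2 h3
        simp only [one_smul, Prod.mk_add_mk]
        exact ih _ _ (by omega) (by omega) (by omega) (by omega))
      simp only [one_smul, Prod.mk_add_mk, zero_add] at e
      have e2 := row_prop hA.med (hL.flat h hh) (hL.flat k hk) (y := b + n) (y' := 1 + (b + n))
        (by simp) (S := Set.Icc (c - R) (c + R)) Set.ordConnected_Icc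
        (fun x hx => ih x _ hx.1 hx.2 (by omega) le_rfl) (x₀ := c) ⟨by omega, by omega⟩ e
      intro x y h1 h2 h3 h4
      rcases (show y ≤ b + n ∨ y = 1 + (b + n) by push_cast at h4; omega) with h5 | rfl
      · exact ih x y h1 h2 h3 h5
      · exact e2 x ⟨h1, h2⟩
  intro x y h1 h2 h3
  exact key (y - b).toNat x y h1 h2 h3 (by omega)

theorem column (hA : Act G Γ) {L : Set (ℤ × ℤ → V)} (hL : Sys G Γ L) {R : ℕ} (hdet : DetUp L R)
    {f : ℤ × ℤ → V} (hf : f ∈ L) (c : ℤ) : ∃ (g : G) (τ : ℕ) (Y : ℤ), 0 < τ ∧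
      ∀ x y : ℤ, c - R ≤ x → x ≤ c + R → Y ≤ y → g • f (x, y) = f (x, y + τ) := by
  obtain ⟨i, j, hij, g, hg⟩ := hL.repeat hA hf (fun n => (c, (n : ℤ))) R
  refine ⟨g, j - i, i - R, by omega, ?_⟩
  have := spread hA hL hdet (hL.mv f hf g 0) (hL.mv f hf 1 (0, ((j - i : ℕ) : ℤ))) c i (by
    intro x y h1 h2 h3 h4
    have := hg (x - c, y - i) (by simp only []; omega) (by simp only []; omega)
    simp only [Prod.mk_add_mk, add_zero, one_smul, sub_add_cancel] at this ⊢
    rw [this]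
    congr 2
    omega)
  intro x y h1 h2 h3
  simpa using this x y h1 h2 h3

theorem columns (hA : Act G Γ) {L : Set (ℤ × ℤ → V)} (hL : Sys G Γ L) {R : ℕ} (hR : 1 ≤ R)
    (hdet : DetUp L R) {f : ℤ × ℤ → V} (hf : f ∈ L) (c : ℤ) (n : ℕ) :
    ∃ (g : G) (τ : ℕ) (Y : ℤ), 0 < τ ∧
      ∀ x y : ℤ, c - R ≤ x → x ≤ c + n + R → Y ≤ y → g • f (x, y) = f (x, y + τ) := by
  induction n with
  | zero => simpa using column hA hL hdet hf c
  | succ n ih =>
    obtain ⟨g, τ, Y, hτ, hg⟩ := ih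
    obtain ⟨g', τ', Y', hτ', hg'⟩ := column hA hL hdet hf (c + n + 1)
    have a1 : ∀ x y : ℤ, c - R ≤ x → x ≤ c + n + R → max Y Y' ≤ y →
        g ^ τ' • f (x, y) = f (x, y + (τ' * τ : ℕ)) := fun x y h1 h2 h3 =>
      pow_tr (fun y hy => hg x y h1 h2 hy) τ' y (by omega)
    have a2 : ∀ x y : ℤ, c + n + 1 - R ≤ x → x ≤ c + n + 1 + R → max Y Y' ≤ y →
        g' ^ τ • f (x, y) = f (x, y + (τ' * τ : ℕ)) := fun x y h1 h2 h3 => by
      rw [mul_comm]
      exact pow_tr (fun y hy => hg' x y h1 h2 hy) τ y (by omega)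
    obtain ⟨k, hk, hkk⟩ := pow_eq hA (x := c + n + 1) (Y := max Y Y')
      (fun y hy => a1 _ y (by omega) (by omega) hy) (fun y hy => a2 _ y (by omega) (by omega) hy)
    refine ⟨(g ^ τ') ^ k, k * (τ' * τ), max Y Y', by positivity, fun x y h1 h2 h3 => ?_⟩
    rcases (show x ≤ c + n + R ∨ x = c + n + 1 + R by push_cast at h2; omega) with h4 | h4
    · exact pow_tr (fun y hy => a1 x y h1 h4 hy) k y h3
    · rw [hkk]
      exact pow_tr (fun y hy => a2 x y (by omega) (by omega) hy) k y h3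

/-- a family of flats which is deterministic in one direction gives `ℤ²` -/
theorem det_up (hA : Act G Γ) {L : Set (ℤ × ℤ → V)} (hL : Sys G Γ L) {R : ℕ} (hR : 1 ≤ R)
    (hdet : DetUp L R) {f : ℤ × ℤ → V} (hf : f ∈ L) :
    ∃ φ : Multiplicative (ℤ × ℤ) →* G, Injective φ := by
  have hff := hL.flat f hf
  obtain ⟨i, j, hij, t, ht⟩ := hL.repeat hA hf (fun n => ((n : ℤ), 0)) R
  obtain ⟨l, rfl⟩ := Nat.exists_eq_add_of_lt hij
  have ht' : ∀ x y : ℤ, (i : ℤ) - R ≤ x → x ≤ i + R → -(R : ℤ) ≤ y →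
      t • f (x, y) = f (x + (l + 1), y) := by
    have := spread hA hL hdet (hL.mv f hf t 0) (hL.mv f hf 1 ((l : ℤ) + 1, 0)) i 0 (by
      intro x y h1 h2 h3 h4
      have := ht (x - i, y) (by simp only []; omega) (by simp only []; omega)
      simp only [Prod.mk_add_mk, add_zero, one_smul, sub_add_cancel] at this ⊢
      rw [this]
      congr 2
      push_cast
      ring)
    intro x y h1 h2 h3
    simpa using this x y h1 h2 (by omega)
  obtain ⟨g, τ, Y, hτ, hg⟩ := columns hA hL hR hdet hf i (l + 1)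
  set Z := max Y (-(R : ℤ)) with hZ
  -- the conjugate of `g`
  obtain ⟨k, hk, hkk⟩ := pow_eq hA (f := f) (a := t * g * t⁻¹) (b := g) (x := i + (l + 1))
    (Y := Z) (T := τ) (by
      intro y hy
      rw [mul_smul, mul_smul, ← ht' i y (by omega) (by omega) (by omega), inv_smul_smul,
        hg i y (by omega) (by push_cast; omega) (by omega), ht' i _ (by omega) (by omega) (by omega)])
    (fun y hy => hg _ y (by omega) (by push_cast; omega) (by omega))
  have hcomm : Commute t (g ^ k) := by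
    rw [conj_pow] at hkk
    exact mul_inv_eq_iff_eq_mul.1 hkk
  have hgk : ∀ x y : ℤ, i - R ≤ x → x ≤ i + (l + 1) + R → Z ≤ y →
      g ^ k • f (x, y) = f (x, y + (k * τ : ℕ)) := fun x y h1 h2 h3 =>
    pow_tr (fun y hy => hg x y h1 (by push_cast; omega) hy) k y (by omega)
  refine z2_of hcomm {v | Γ.dist v (f (i + 1, Z)) < Γ.dist v (f (i, Z))} ?_
    (p := f (i + (l + 1), Z)) ?_ ?_ ?_ ?_
  · intro v hv
    simp only [Set.mem_ofPred_eq] at hv ⊢
    have h1 : Γ.dist (t • v) (f (i + (l + 1 : ℕ) + 1, Z)) <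
        Γ.dist (t • v) (f (i + (l + 1 : ℕ), Z)) := by
      have e1 := ht' i Z (by omega) (by omega) (by omega)
      have e2 := ht' (i + 1) Z (by omega) (by omega) (by omega)
      rw [show (i : ℤ) + (l + 1 : ℕ) + 1 = i + 1 + (l + 1) by push_cast; ring,
        show (i : ℤ) + (l + 1 : ℕ) = i + (l + 1) by push_cast; ring, ← e1, ← e2, hA.dist, hA.dist]
      exact hv
    exact nested hA.med hA.n3 hff _ i Z (l + 1) (by omega) h1
  · simp only [Set.mem_ofPred_eq]
    rw [hff.dist_eq (n := l) (by simp only [Int.abs_eq_natAbs]; omega),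
      hff.dist_eq (n := l + 1) (by simp only [Int.abs_eq_natAbs]; omega)]
    omega
  · rw [← ht' i Z (by omega) (by omega) (by omega), inv_smul_smul]
    simp only [Set.mem_ofPred_eq]
    rw [SimpleGraph.dist_self]
    omega
  · intro v
    simp only [Set.mem_ofPred_eq]
    have e1 := hgk i Z (by omega) (by omega) le_rfl
    have e2 := hgk (i + 1) Z (by omega) (by omega) le_rfl
    constructor
    · intro h
      have h1 : Γ.dist (g ^ k • v) (f (i + 1, Z + (k * τ : ℕ))) <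
          Γ.dist (g ^ k • v) (f (i, Z + (k * τ : ℕ))) := by
        rw [← e1, ← e2, hA.dist, hA.dist]
        exact h
      exact par hA.med hff Z h1
    · intro h
      have h1 := par hA.med hff (Z + (k * τ : ℕ)) h
      rw [← e1, ← e2, hA.dist, hA.dist] at h1
      exact h1
  · intro n hn h1
    have h2 := pow_tr (f := f) (g := g ^ k) (x := i) (Y := Z) (τ := k * τ)
      (fun y hy => hgk i y (by omega) (by omega) hy) n Z le_rfl
    rw [h1, one_smul] at h2
    have h3 := hff.inj h2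
    simp only [Prod.mk.injEq, true_and] at h3
    have h4 : 0 < n * (k * τ) := by positivity
    omega

end Pool.Agent.N47.SQ
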