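import Pool.Agent.N47.SQ.Flat

/-!
# Two flat planes which agree on a rectangle and differ next to its sides
-/

set_option autoImplicit false

namespace Pool.Agent.N47.SQ

open Function

variable {V : Type*} {Γ : SimpleGraph V}

/-- two flats which agree on a rectangle and differ at all neighbours of the rectangle -/
structure Ex (Γ : SimpleGraph V) (f g : ℤ × ℤ → V) (a b c d : ℤ) : Prop where
  hf : IsFlat Γ f
  hg : IsFlat Γ g
  hab : a < b
  hcd : c < d
  ag : ∀ x y, a ≤ x → x ≤ b → c ≤ y → y ≤ d → f (x, y) = g (x, y)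
  lt : ∀ y, c ≤ y → y ≤ d → f (a - 1, y) ≠ g (a - 1, y)
  rt : ∀ y, c ≤ y → y ≤ d → f (b + 1, y) ≠ g (b + 1, y)
  dn : ∀ x, a ≤ x → x ≤ b → f (x, c - 1) ≠ g (x, c - 1)
  up : ∀ x, a ≤ x → x ≤ b → f (x, d + 1) ≠ g (x, d + 1)

/-- it is enough to have one point on every side -/
theorem Ex.mk' (hΓ : IsMedian Γ) {f g : ℤ × ℤ → V} {a b c d : ℤ} (hf : IsFlat Γ f)
    (hg : IsFlat Γ g) (hab : a < b) (hcd : c < d)
    (ag : ∀ x y, a ≤ x → x ≤ b → c ≤ y → y ≤ d → f (x, y) = g (x, y))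
    (l : f (a - 1, c) ≠ g (a - 1, c)) (r : f (b + 1, c) ≠ g (b + 1, c))
    (dn : f (a, c - 1) ≠ g (a, c - 1)) (u : f (a, d + 1) ≠ g (a, d + 1)) : Ex Γ f g a b c d where
  hf := hf
  hg := hg
  hab := hab
  hcd := hcd
  ag := ag
  lt := fun y h1 h2 h => l (col_prop hΓ hf hg (x := a) (by simp) (Set.ordConnected_Icc (a := c) (b := d))
    (fun y hy => ag a y le_rfl hab.le hy.1 hy.2) ⟨h1, h2⟩ h c ⟨le_rfl, hcd.le⟩)
  rt := fun y h1 h2 h => r (col_prop hΓ hf hg (x := b) (by simp) (Set.ordConnected_Icc (a := c) (b := d))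
    (fun y hy => ag b y hab.le le_rfl hy.1 hy.2) ⟨h1, h2⟩ h c ⟨le_rfl, hcd.le⟩)
  dn := fun x h1 h2 h => dn (row_prop hΓ hf hg (y := c) (by simp) (Set.ordConnected_Icc (a := a) (b := b))
    (fun x hx => ag x c hx.1 hx.2 le_rfl hcd.le) ⟨h1, h2⟩ h a ⟨le_rfl, hab.le⟩)
  up := fun x h1 h2 h => u (row_prop hΓ hf hg (y := d) (by simp) (Set.ordConnected_Icc (a := a) (b := b))
    (fun x hx => ag x d hx.1 hx.2 hcd.le le_rfl) ⟨h1, h2⟩ h a ⟨le_rfl, hab.le⟩)

theorem Ex.neg1 {f g : ℤ × ℤ → V} {a b c d : ℤ} (h : Ex Γ f g a b c d) :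
    Ex Γ (fun z => f (-z.1, z.2)) (fun z => g (-z.1, z.2)) (-b) (-a) c d where
  hf := h.hf.neg1
  hg := h.hg.neg1
  hab := by have := h.hab; omega
  hcd := h.hcd
  ag := fun x y h1 h2 h3 h4 => h.ag _ _ (by simp only []; omega) (by simp only []; omega) h3 h4
  lt := fun y h1 h2 h3 => h.rt y h1 h2 (by simpa [show -(-b - 1) = b + 1 by ring] using h3)
  rt := fun y h1 h2 h3 => h.lt y h1 h2 (by simpa [show -(-a + 1) = a - 1 by ring] using h3)
  dn := fun x h1 h2 h3 => h.dn (-x) (by omega) (by omega) h3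
  up := fun x h1 h2 h3 => h.up (-x) (by omega) (by omega) h3

theorem Ex.swap {f g : ℤ × ℤ → V} {a b c d : ℤ} (h : Ex Γ f g a b c d) :
    Ex Γ (fun z => f (z.2, z.1)) (fun z => g (z.2, z.1)) c d a b where
  hf := h.hf.swap
  hg := h.hg.swap
  hab := h.hcd
  hcd := h.hab
  ag := fun _ _ h1 h2 h3 h4 => h.ag _ _ h3 h4 h1 h2
  lt := h.dn
  rt := h.up
  dn := h.lt
  up := h.rt

theorem Ex.neg2 {f g : ℤ × ℤ → V} {a b c d : ℤ} (h : Ex Γ f g a b c d) :
    Ex Γ (fun z => f (z.1, -z.2)) (fun z => g (z.1, -z.2)) a b (-d) (-c) := by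
  simpa using h.swap.neg1.swap

/-- three edges at a vertex: two different ones leading towards `v` and a third one -/
theorem Ex.cornerless (hΓ : IsMedian Γ) (h3 : NoThreeCube Γ) {f g : ℤ × ℤ → V} (hf : IsFlat Γ f)
    (hg : IsFlat Γ g) {x y y' : ℤ} (hy : |y - y'| = 1) {v : V} (h0 : f (x, y) = g (x, y))
    (h1 : f (x, y') = g (x, y')) (hne : f (x + 1, y) ≠ g (x + 1, y))
    (d1 : Γ.dist v (f (x, y)) = Γ.dist v (f (x + 1, y)) + 1)
    (d2 : Γ.dist v (f (x, y)) = Γ.dist v (g (x + 1, y)) + 1) : False := by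
  have hy' : |y' - y| = 1 := by rw [abs_sub_comm]; exact hy
  have a1 : Γ.Adj (f (x, y)) (f (x + 1, y)) := hf.adj (by simp)
  have a2 : Γ.Adj (f (x, y)) (g (x + 1, y)) := by rw [h0]; exact hg.adj (by simp)
  have a3 : Γ.Adj (f (x, y)) (f (x, y')) := hf.adj (by simp [hy])
  obtain ⟨s, s1, s2, s3⟩ := hΓ.quad a1 a2 hne d1 d2
  refine no_three hΓ h3 a1 a2 a3 hne ?_ ?_ s1 s2 ?_ (spr := f (x + 1, y'))
    (sqr := g (x + 1, y')) ?_ ?_ ?_ ?_ ?_ ?_
  · intro h
    have := hf.inj h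
    simp only [Prod.mk.injEq] at this
    omega
  · intro h
    rw [h1] at h
    have := hg.inj h
    simp only [Prod.mk.injEq] at this
    omega
  · rintro rfl
    omega
  · exact hf.adj (by simp [hy])
  · exact hf.adj (by simp)
  · intro h
    have := hf.inj h
    simp only [Prod.mk.injEq] at this
    omega
  · exact hg.adj (by simp [hy])
  · rw [h1]; exact hg.adj (by simp)
  · intro h
    rw [h0] at h
    have := hg.inj h
    simp only [Prod.mk.injEq] at this
    omega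

theorem Ex.main0 (hΓ : IsMedian Γ) (h3 : NoThreeCube Γ) {f g : ℤ × ℤ → V} {a b c d : ℤ}
    (h : Ex Γ f g a b c d) (z w : ℤ × ℤ) (hz1 : b < z.1) (hz2 : c < z.2) : f z ≠ g w := by
  intro hv
  have hab := h.hab
  have hcd := h.hcd
  -- equal distances
  have key : ∀ x y, a ≤ x → x ≤ b → c ≤ y → y ≤ d →
      |z.1 - x| + |z.2 - y| = |w.1 - x| + |w.2 - y| := by
    intro x y h1 h2 h4 h5
    have e1 := h.hf z (x, y)
    have e2 := h.hg w (x, y)
    rw [h.ag x y h1 h2 h4 h5, hv] at e1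
    simp only [] at e1 e2
    omega
  obtain ⟨y₀, hy₀⟩ : ∃ y₀ : ℤ, y₀ = min z.2 d := ⟨_, rfl⟩
  have hy1 : c < y₀ := by omega
  have hy2 : y₀ ≤ d := by omega
  have k1 := key b y₀ (by omega) le_rfl (by omega) hy2
  have k2 := key (b - 1) y₀ (by omega) (by omega) (by omega) hy2
  have k3 := key b (y₀ - 1) (by omega) le_rfl (by omega) (by omega)
  have hw1 : b ≤ w.1 := by
    simp only [abs_eq_max_neg] at k1 k2
    omega
  have hw2 : y₀ ≤ w.2 := by
    simp only [abs_eq_max_neg] at k1 k3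
    omega
  have hag : f (b, y₀) = g (b, y₀) := h.ag _ _ hab.le le_rfl (by omega) hy2
  have hag' : f (b, y₀ - 1) = g (b, y₀ - 1) := h.ag _ _ hab.le le_rfl (by omega) (by omega)
  -- distances from `v`
  have v1 := h.hf z (b, y₀)
  have v2 := h.hf z (b + 1, y₀)
  have w2 := h.hg w (b + 1, y₀)
  simp only [] at v1 v2 w2
  rw [← hv] at w2
  rcases hw1.lt_or_eq with hw1' | hw1'
  · refine Ex.cornerless hΓ h3 h.hf h.hg (x := b) (y := y₀) (y' := y₀ - 1) (by simp) hag hag'
      (h.rt y₀ (by omega) hy2) (v := f z) ?_ ?_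
    · rw [abs_of_nonneg (by omega : 0 ≤ z.1 - b)] at v1
      rw [abs_of_nonneg (by omega : 0 ≤ z.1 - (b + 1))] at v2
      omega
    · rw [abs_of_nonneg (by omega : 0 ≤ z.1 - b)] at v1 k1
      rw [abs_of_nonneg (by omega : 0 ≤ w.1 - (b + 1))] at w2
      rw [abs_of_nonneg (by omega : 0 ≤ w.1 - b)] at k1
      omega
  · -- `w` is in the column `b`
    have hwz : w.2 = y₀ + (z.1 - b) + (z.2 - y₀) := by
      rw [abs_of_nonneg (by omega : 0 ≤ z.1 - b), abs_of_nonneg (by omega : 0 ≤ z.2 - y₀),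
        abs_of_nonneg (by omega : 0 ≤ w.2 - y₀), ← hw1'] at k1
      simp at k1
      omega
    -- `y₀ = d`
    have hyd : y₀ = d := by
      by_contra hne
      have k4 := key b (y₀ + 1) (by omega) le_rfl (by omega) (by omega)
      simp only [abs_eq_max_neg] at k1 k4
      omega
    subst hyd
    have v3 := h.hf z (b, y₀ + 1)
    have w3 := h.hg w (b, y₀ + 1)
    simp only [] at v3 w3
    rw [← hv, ← hw1', sub_self, abs_zero, zero_add] at w3
    rcases Int.lt_or_le y₀ z.2 with hz | hz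
    · -- both reach the side above
      refine Ex.cornerless hΓ h3 h.hf.swap h.hg.swap (x := y₀) (y := b) (y' := b - 1) (by simp) hag
        (h.ag _ _ (by omega) (by omega) (by omega) le_rfl) (h.up b hab.le le_rfl) (v := f z) ?_ ?_
      · simp only []
        rw [abs_of_nonneg (by omega : 0 ≤ z.2 - y₀)] at v1
        rw [abs_of_nonneg (by omega : 0 ≤ z.2 - (y₀ + 1))] at v3
        omega
      · simp only []
        rw [abs_of_nonneg (by omega : 0 ≤ z.2 - y₀), abs_of_nonneg (by omega : 0 ≤ z.1 - b)] at v1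
        rw [abs_of_nonneg (by omega : 0 ≤ w.2 - (y₀ + 1))] at w3
        omega
    · have hz2' : z.2 = y₀ := by omega
      obtain ⟨k, hk⟩ := Int.eq_ofNat_of_zero_le (show 0 ≤ z.1 - b by omega)
      have ez : z = (b + k, y₀) := Prod.ext (by simp only []; omega) hz2'
      -- the neighbour of the corner in the column of `g` is the one in the row of `f`
      have e1 : g (b, y₀ + 1) = f (b + 1, y₀) := by
        refine unique_row hΓ h3 h.hf (x := b) (y := y₀) ?_ k ?_
        · rw [hag]; exact h.hg.adj (by simp)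
        · rw [dcomm, ← ez]
          rw [abs_of_nonneg (by omega : 0 ≤ w.2 - (y₀ + 1))] at w3
          omega
      -- but then there are two geodesics in a column of `g`
      have e2 : f (b + 1, y₀ - 1) = g (b, y₀) := by
        have := unique_row hΓ h3 h.hg.swap (x := y₀ - 1) (y := b) (u := f (b + 1, y₀ - 1)) ?_ 2 ?_
        · simpa using this
        · simp only []
          rw [← hag']
          exact h.hf.adj (by simp)
        · simp only []
          rw [show y₀ - 1 + ((2 : ℕ) : ℤ) = y₀ + 1 by push_cast; ring, e1]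
          have : Γ.dist (f (b + 1, y₀ - 1)) (f (b + 1, y₀)) = 1 := h.hf.dist_eq (by simp)
          omega
      rw [← hag] at e2
      have := h.hf.inj e2
      simp only [Prod.mk.injEq] at this
      omega

theorem Ex.right (hΓ : IsMedian Γ) (h3 : NoThreeCube Γ) {f g : ℤ × ℤ → V} {a b c d : ℤ}
    (h : Ex Γ f g a b c d) (z w : ℤ × ℤ) (hz1 : b < z.1) : f z ≠ g w := by
  have hcd := h.hcd
  rcases Int.lt_or_le c z.2 with hz | hz
  · exact h.main0 hΓ h3 z w hz1 hz
  · have := h.neg2.main0 hΓ h3 (z.1, -z.2) (w.1, -w.2) hz1 (by simp only []; omega)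
    simpa using this

/-- outside the rectangle the planes are disjoint -/
theorem Ex.main (hΓ : IsMedian Γ) (h3 : NoThreeCube Γ) {f g : ℤ × ℤ → V} {a b c d : ℤ}
    (h : Ex Γ f g a b c d) (z w : ℤ × ℤ) :
    f z = g w ↔ z = w ∧ a ≤ z.1 ∧ z.1 ≤ b ∧ c ≤ z.2 ∧ z.2 ≤ d := by
  constructor
  · intro hv
    have c1 : z.1 ≤ b := by
      by_contra hc
      exact h.right hΓ h3 z w (by omega) hv
    have c2 : a ≤ z.1 := by
      by_contra hc
      refine h.neg1.right hΓ h3 (-z.1, z.2) (-w.1, w.2) (by simp only []; omega) ?_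
      simpa using hv
    have c3 : z.2 ≤ d := by
      by_contra hc
      exact h.swap.right hΓ h3 (z.2, z.1) (w.2, w.1) (by simp only []; omega) hv
    have c4 : c ≤ z.2 := by
      by_contra hc
      refine h.swap.neg1.right hΓ h3 (-z.2, z.1) (-w.2, w.1) (by simp only []; omega) ?_
      simpa using hv
    refine ⟨?_, c2, c1, c4, c3⟩
    rw [show z = (z.1, z.2) from rfl, h.ag _ _ c2 c1 c4 c3] at hv
    exact h.hg.inj hv
  · rintro ⟨rfl, h1, h2, h4, h5⟩
    exact h.ag _ _ h1 h2 h4 h5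

end Pool.Agent.N47.SQ
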