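import Pool.Agent.N47.SQ.Basic

/-!
# Flat planes in median graphs without 3-cubes
-/

set_option autoImplicit false

namespace Pool.Agent.N47.SQ

open Function

variable {V : Type*} {Γ : SimpleGraph V}

/-- a flat plane: an isometric embedding of the grid `ℤ × ℤ` -/
def IsFlat (Γ : SimpleGraph V) (f : ℤ × ℤ → V) : Prop :=
  ∀ z w : ℤ × ℤ, (Γ.dist (f z) (f w) : ℤ) = |z.1 - w.1| + |z.2 - w.2|

theorem IsFlat.adj {f : ℤ × ℤ → V} (hf : IsFlat Γ f) {z w : ℤ × ℤ}
    (h : |z.1 - w.1| + |z.2 - w.2| = 1) : Γ.Adj (f z) (f w) := by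
  rw [← adj_iff]
  have := hf z w
  omega

theorem IsFlat.dist_eq {f : ℤ × ℤ → V} (hf : IsFlat Γ f) {z w : ℤ × ℤ} {n : ℕ}
    (h : |z.1 - w.1| + |z.2 - w.2| = n) : Γ.dist (f z) (f w) = n := by
  have := hf z w
  omega

theorem IsFlat.inj {f : ℤ × ℤ → V} (hf : IsFlat Γ f) {z w : ℤ × ℤ} (h : f z = f w) : z = w := by
  have h1 := hf z w
  rw [h, SimpleGraph.dist_self] at h1
  have h2 := abs_nonneg (z.1 - w.1)
  have h3 := abs_nonneg (z.2 - w.2)
  have h4 : |z.1 - w.1| = 0 := by push_cast at h1; omega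
  have h5 : |z.2 - w.2| = 0 := by push_cast at h1; omega
  rw [abs_eq_zero] at h4 h5
  exact Prod.ext (by omega) (by omega)

theorem IsFlat.comp {f : ℤ × ℤ → V} (hf : IsFlat Γ f) (σ : ℤ × ℤ → ℤ × ℤ)
    (hσ : ∀ z w, |(σ z).1 - (σ w).1| + |(σ z).2 - (σ w).2| = |z.1 - w.1| + |z.2 - w.2|) :
    IsFlat Γ (fun z => f (σ z)) := fun z w => by rw [hf, hσ]

theorem IsFlat.swap {f : ℤ × ℤ → V} (hf : IsFlat Γ f) : IsFlat Γ (fun z => f (z.2, z.1)) :=
  hf.comp (fun z => (z.2, z.1)) fun z w => by simp only []; rw [add_comm]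

theorem IsFlat.neg1 {f : ℤ × ℤ → V} (hf : IsFlat Γ f) : IsFlat Γ (fun z => f (-z.1, z.2)) :=
  hf.comp (fun z => (-z.1, z.2)) fun z w => by
    simp only []
    rw [show -z.1 - -w.1 = -(z.1 - w.1) by ring, abs_neg]

theorem IsFlat.neg2 {f : ℤ × ℤ → V} (hf : IsFlat Γ f) : IsFlat Γ (fun z => f (z.1, -z.2)) :=
  hf.comp (fun z => (z.1, -z.2)) fun z w => by
    simp only []
    rw [show -z.2 - -w.2 = -(z.2 - w.2) by ring, abs_neg]

/-- two flats which agree at three vertices of a square agree at the fourth -/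
theorem corner (hΓ : IsMedian Γ) {f g : ℤ × ℤ → V} (hf : IsFlat Γ f) (hg : IsFlat Γ g)
    {x x' y y' : ℤ} (hx : |x - x'| = 1) (hy : |y - y'| = 1) (h0 : f (x, y) = g (x, y))
    (h1 : f (x', y) = g (x', y)) (h2 : f (x, y') = g (x, y')) : f (x', y') = g (x', y') := by
  by_contra hne
  have hx' : |x' - x| = 1 := by rw [abs_sub_comm]; exact hx
  have hy' : |y' - y| = 1 := by rw [abs_sub_comm]; exact hy
  have a1 : Γ.Adj (f (x', y)) (f (x, y)) := hf.adj (by simp [hx'])
  have a2 : Γ.Adj (f (x, y')) (f (x, y)) := hf.adj (by simp [hy'])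
  have a3 : Γ.Adj (f (x', y)) (f (x', y')) := hf.adj (by simp [hy])
  have a4 : Γ.Adj (f (x, y')) (f (x', y')) := hf.adj (by simp [hx])
  have a5 : Γ.Adj (f (x', y)) (g (x', y')) := by rw [h1]; exact hg.adj (by simp [hy])
  have a6 : Γ.Adj (f (x, y')) (g (x', y')) := by rw [h2]; exact hg.adj (by simp [hx])
  have n1 : f (x, y) ≠ f (x', y') := fun h => by
    have := hf.inj h
    simp only [Prod.mk.injEq] at this
    rw [this.1] at hx
    simp at hx
  have n2 : f (x, y) ≠ g (x', y') := fun h => by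
    rw [h0] at h
    have := hg.inj h
    simp only [Prod.mk.injEq] at this
    rw [this.1] at hx
    simp at hx
  have := hf.inj (hΓ.common_nbr a1 a3 a5 a2 a4 a6 n1 hne n2)
  simp only [Prod.mk.injEq] at this
  rw [this.1] at hx
  simp at hx

/-- agreement spreads along columns -/
theorem col_prop (hΓ : IsMedian Γ) {f g : ℤ × ℤ → V} (hf : IsFlat Γ f) (hg : IsFlat Γ g)
    {x x' : ℤ} (hx : |x - x'| = 1) {S : Set ℤ} (hS : S.OrdConnected)
    (h : ∀ y ∈ S, f (x, y) = g (x, y)) {y₀ : ℤ} (h0 : y₀ ∈ S) (h1 : f (x', y₀) = g (x', y₀)) :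
    ∀ y ∈ S, f (x', y) = g (x', y) := by
  have up : ∀ n : ℕ, y₀ + n ∈ S → f (x', y₀ + n) = g (x', y₀ + n) := by
    intro n
    induction n with
    | zero => intro _; simpa using h1
    | succ n ih =>
      intro hn
      have hn' : y₀ + (n : ℤ) ∈ S := hS.out h0 hn ⟨by omega, by push_cast; omega⟩
      exact corner hΓ hf hg hx (by push_cast; rw [show y₀ + (n : ℤ) - (y₀ + (n + 1)) = -1 by ring]; simp)
        (h _ hn') (ih hn') (h _ hn)
  have down : ∀ n : ℕ, y₀ - n ∈ S → f (x', y₀ - n) = g (x', y₀ - n) := by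
    intro n
    induction n with
    | zero => intro _; simpa using h1
    | succ n ih =>
      intro hn
      have hn' : y₀ - (n : ℤ) ∈ S := hS.out hn h0 ⟨by push_cast; omega, by omega⟩
      exact corner hΓ hf hg hx (by push_cast; rw [show y₀ - (n : ℤ) - (y₀ - (n + 1)) = 1 by ring]; simp)
        (h _ hn') (ih hn') (h _ hn)
  intro y hy
  rcases le_total y₀ y with hl | hl
  · obtain ⟨n, hn⟩ := Int.eq_ofNat_of_zero_le (sub_nonneg.2 hl)
    have e : y = y₀ + n := by omega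
    rw [e] at hy ⊢
    exact up n hy
  · obtain ⟨n, hn⟩ := Int.eq_ofNat_of_zero_le (sub_nonneg.2 hl)
    have e : y = y₀ - n := by omega
    rw [e] at hy ⊢
    exact down n hy

/-- agreement spreads along rows -/
theorem row_prop (hΓ : IsMedian Γ) {f g : ℤ × ℤ → V} (hf : IsFlat Γ f) (hg : IsFlat Γ g)
    {y y' : ℤ} (hy : |y - y'| = 1) {S : Set ℤ} (hS : S.OrdConnected)
    (h : ∀ x ∈ S, f (x, y) = g (x, y)) {x₀ : ℤ} (h0 : x₀ ∈ S) (h1 : f (x₀, y') = g (x₀, y')) :
    ∀ x ∈ S, f (x, y') = g (x, y') :=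
  col_prop hΓ hf.swap hg.swap hy hS h h0 h1

/-- the distance from a vertex has no local maximum on a row -/
theorem no_max (hΓ : IsMedian Γ) (h3 : NoThreeCube Γ) {f : ℤ × ℤ → V} (hf : IsFlat Γ f) (v : V)
    (x y : ℤ) (h1 : Γ.dist v (f (x, y)) = Γ.dist v (f (x - 1, y)) + 1)
    (h2 : Γ.dist v (f (x, y)) = Γ.dist v (f (x + 1, y)) + 1) : False := by
  have a1 : Γ.Adj (f (x, y)) (f (x - 1, y)) := hf.adj (by simp)
  have a2 : Γ.Adj (f (x, y)) (f (x + 1, y)) := hf.adj (by simp)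
  have a3 : Γ.Adj (f (x, y)) (f (x, y + 1)) := hf.adj (by simp)
  have n1 : f (x - 1, y) ≠ f (x + 1, y) := fun h => by
    have := hf.inj h
    simp only [Prod.mk.injEq] at this
    omega
  have n2 : f (x - 1, y) ≠ f (x, y + 1) := fun h => by
    have := hf.inj h
    simp only [Prod.mk.injEq] at this
    omega
  have n3 : f (x + 1, y) ≠ f (x, y + 1) := fun h => by
    have := hf.inj h
    simp only [Prod.mk.injEq] at this
    omega
  obtain ⟨s, s1, s2, s3⟩ := hΓ.quad a1 a2 n1 h1 h2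
  refine no_three hΓ h3 a1 a2 a3 n1 n2 n3 s1 s2 ?_ (spr := f (x - 1, y + 1))
    (sqr := f (x + 1, y + 1)) ?_ ?_ ?_ ?_ ?_ ?_
  · rintro rfl
    omega
  · exact hf.adj (by simp)
  · exact hf.adj (by simp)
  · intro h
    have := hf.inj h
    simp only [Prod.mk.injEq] at this
    omega
  · exact hf.adj (by simp)
  · exact hf.adj (by simp)
  · intro h
    have := hf.inj h
    simp only [Prod.mk.injEq] at this
    omega

/-- nested half-spaces -/
theorem nested (hΓ : IsMedian Γ) (h3 : NoThreeCube Γ) {f : ℤ × ℤ → V} (hf : IsFlat Γ f) (v : V)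
    (x y : ℤ) (L : ℕ) (hL : 1 ≤ L)
    (h : Γ.dist v (f (x + L + 1, y)) < Γ.dist v (f (x + L, y))) :
    Γ.dist v (f (x + 1, y)) < Γ.dist v (f (x, y)) := by
  classical
  by_contra hc
  have hex : ∃ i : ℕ, 1 ≤ i ∧ Γ.dist v (f (x + i + 1, y)) < Γ.dist v (f (x + i, y)) := ⟨L, hL, h⟩
  obtain ⟨i1, i2⟩ := Nat.find_spec hex
  have hmin := fun j (hj : j < Nat.find hex) => Nat.find_min hex hj
  set i := Nat.find hex
  have b1 : Γ.dist v (f (x + i, y)) = Γ.dist v (f (x + i + 1, y)) + 1 := by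
    have := hΓ.ne_dist (hf.adj (z := (x + i, y)) (w := (x + i + 1, y)) (by simp)) v
    omega
  have b2 : Γ.dist v (f (x + i, y)) = Γ.dist v (f (x + i - 1, y)) + 1 := by
    have h4 := hΓ.ne_dist (hf.adj (z := (x + i, y)) (w := (x + i - 1, y)) (by simp)) v
    rcases h4 with h4 | h4
    · exact h4
    · exfalso
      rcases Nat.lt_or_ge 1 i with h5 | h5
      · apply hmin (i - 1) (by omega)
        refine ⟨by omega, ?_⟩
        have e1 : x + ((i - 1 : ℕ) : ℤ) + 1 = x + i := by push_cast [i1]; ring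
        have e2 : x + ((i - 1 : ℕ) : ℤ) = x + i - 1 := by push_cast [i1]; ring
        rw [e1, e2]
        omega
      · have h6 : i = 1 := by omega
        rw [h6] at h4
        have e1 : x + ((1 : ℕ) : ℤ) = x + 1 := by simp
        have e2 : x + ((1 : ℕ) : ℤ) - 1 = x := by simp
        rw [e2, e1] at h4
        omega
  exact no_max hΓ h3 hf v (x + i) y b2 b1

/-- uniqueness of geodesics on rows -/
theorem unique_row (hΓ : IsMedian Γ) (h3 : NoThreeCube Γ) {f : ℤ × ℤ → V} (hf : IsFlat Γ f)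
    {u : V} {x y : ℤ} (hu : Γ.Adj (f (x, y)) u) (k : ℕ)
    (h : Γ.dist u (f (x + k, y)) + 1 = k) : u = f (x + 1, y) := by
  by_contra hne
  have a1 : Γ.Adj (f (x, y)) (f (x + 1, y)) := hf.adj (by simp)
  have d1 : Γ.dist u (f (x + 1, y)) = 2 := hΓ.dist_two hu a1 hne
  have d0 : Γ.dist u (f (x, y)) = 1 := (adj_iff _ _).2 hu.symm
  have key : ∀ j : ℕ, 1 ≤ j → Γ.dist u (f (x + j, y)) = j + 1 := by
    intro j hj
    induction j, hj using Nat.le_induction with
    | base => simpa using d1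
    | succ j hj ih =>
      have h4 := hΓ.ne_dist (hf.adj (z := (x + j, y)) (w := (x + (j + 1 : ℕ), y))
        (by push_cast; simp)) u
      rcases h4 with h4 | h4
      · exfalso
        have := nested hΓ h3 hf u x y j hj (by push_cast at h4 ⊢; rw [add_assoc]; omega)
        omega
      · omega
  have := key k (by omega)
  omega

/-- opposite edges of a square define the same half-spaces -/
theorem parallel (hΓ : IsMedian Γ) {a b a' b' : V} (h1 : Γ.Adj a b) (h2 : Γ.Adj a' b')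
    (h3 : Γ.Adj a a') (h4 : Γ.Adj b b') (n1 : a ≠ b') (n2 : b ≠ a') {v : V}
    (h : Γ.dist v b < Γ.dist v a) : Γ.dist v b' < Γ.dist v a' := by
  by_contra hc
  have e1 := hΓ.ne_dist h1 v
  have e2 := hΓ.ne_dist h2 v
  have e3 := hΓ.ne_dist h3 v
  have e4 := hΓ.ne_dist h4 v
  obtain ⟨s, s1, s2, s3⟩ := hΓ.quad (v := v) h1 h3 n2 (by omega) (by omega)
  refine n2 (hΓ.common_nbr h1.symm h4 s1 h3.symm h2 s2 n1 ?_ ?_)
  · rintro rfl
    omega
  · rintro rfl
    omega

end Pool.Agent.N47.SQ
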