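import Pool.Agent.N47.SQ.Det

/-!
# Pairs of flats which separate along half-planes and quadrants
-/

set_option autoImplicit false

namespace Pool.Agent.N47.SQ

open Function Set

variable {V : Type*} {G : Type*} [Group G] [MulAction G V] {Γ : SimpleGraph V}

/-- symmetries of order two of the grid -/
structure Sym (σ : ℤ × ℤ → ℤ × ℤ) : Prop where
  inv : ∀ z, σ (σ z) = z
  add : ∀ z w, σ (z + w) = σ z + σ w
  iso : ∀ z w, |(σ z).1 - (σ w).1| + |(σ z).2 - (σ w).2| = |z.1 - w.1| + |z.2 - w.2|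
  win : ∀ (z : ℤ × ℤ) (R : ℕ), z.1.natAbs ≤ R → z.2.natAbs ≤ R →
    (σ z).1.natAbs ≤ R ∧ (σ z).2.natAbs ≤ R

theorem sym_swap : Sym (fun z => (z.2, z.1)) where
  inv := fun z => rfl
  add := fun z w => rfl
  iso := fun z w => by simp only []; ring
  win := fun z R h1 h2 => ⟨h2, h1⟩

theorem sym_neg : Sym (fun z => (-z.1, -z.2)) where
  inv := fun z => by simp
  add := fun z w => by ext <;> simp <;> ring
  iso := fun z w => by
    simp only []
    rw [show -z.1 - -w.1 = -(z.1 - w.1) by ring, show -z.2 - -w.2 = -(z.2 - w.2) by ring,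
      abs_neg, abs_neg]
  win := fun z R h1 h2 => by simpa using ⟨h1, h2⟩

/-- transport of a family of flats by a symmetry -/
def tr (σ : ℤ × ℤ → ℤ × ℤ) (L : Set (ℤ × ℤ → V)) : Set (ℤ × ℤ → V) :=
  {h | (fun z => h (σ z)) ∈ L}

theorem Sys.tr {σ : ℤ × ℤ → ℤ × ℤ} (hσ : Sym σ) {L : Set (ℤ × ℤ → V)} (hL : Sys G Γ L) :
    Sys G Γ (tr σ L) where
  flat := fun h hh => by
    have := (hL.flat _ hh).comp σ hσ.iso
    simpa only [hσ.inv] using this
  mv := fun h hh g b => by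
    have := hL.mv _ hh g (σ b)
    show (fun z => g • h (σ z + b)) ∈ L
    simpa only [hσ.inv, hσ.add] using this
  clo := fun h hh => by
    apply hL.clo
    intro R
    obtain ⟨k, hk, hk2⟩ := hh R
    exact ⟨_, hk, fun z h1 h2 => hk2 _ (hσ.win z R h1 h2).1 (hσ.win z R h1 h2).2⟩

theorem IsMin.tr {σ : ℤ × ℤ → ℤ × ℤ} (hσ : Sym σ) {L : Set (ℤ × ℤ → V)} (hL : IsMin G Γ L) :
    IsMin G Γ (tr σ L) where
  sys := hL.sys.tr hσ
  ne := by
    obtain ⟨h, hh⟩ := hL.ne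
    refine ⟨fun z => h (σ z), ?_⟩
    show (fun z => h (σ (σ z))) ∈ L
    simpa only [hσ.inv] using hh
  min := fun h hh k hk R => by
    obtain ⟨g, b, hg⟩ := hL.min _ hh hk R
    refine ⟨g, σ b, fun z h1 h2 => ?_⟩
    have := hg (σ z) (hσ.win z R h1 h2).1 (hσ.win z R h1 h2).2
    simpa only [hσ.inv, hσ.add] using this

/-- there are two flats which separate exactly at a horizontal line -/
theorem up_pair (hA : Act G Γ) {L : Set (ℤ × ℤ → V)} (hL : Sys G Γ L) (hne : L.Nonempty)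
    (hZ : ¬ ∃ φ : Multiplicative (ℤ × ℤ) →* G, Injective φ) :
    ∃ h ∈ L, ∃ k ∈ L, (∀ x y : ℤ, y ≤ 0 → h (x, y) = k (x, y)) ∧ h (0, 1) ≠ k (0, 1) := by
  obtain ⟨f, hf⟩ := hne
  have h1 : ∀ R : ℕ, ¬ DetUp L (R + 1) := fun R h => hZ (det_up hA hL (by omega) h hf)
  unfold DetUp at h1
  push Not at h1
  choose h hh k hk hag hne using h1
  obtain ⟨h', hh', k', hk', hlim⟩ := hL.limit hA h k hh hk
    (fun n => hag n 0 0 (by simp) (by push_cast; omega) le_rfl)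
  refine ⟨h', hh', k', hk', fun x y hy => ?_, ?_⟩
  · obtain ⟨n, hn, g, hg⟩ := hlim (x.natAbs + y.natAbs) (x.natAbs + y.natAbs)
    obtain ⟨e1, e2⟩ := hg (x, y) (by simp only []; omega) (by simp only []; omega)
    rw [e1, e2, hag n x y (by omega) (by push_cast; omega) hy]
  · obtain ⟨n, hn, g, hg⟩ := hlim 1 0
    obtain ⟨e1, e2⟩ := hg (0, 1) (by simp) (by simp)
    rw [e1, e2]
    exact fun h => hne n (smul_left_cancel g h)

theorem right_pair (hA : Act G Γ) {L : Set (ℤ × ℤ → V)} (hL : Sys G Γ L) (hne : L.Nonempty)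
    (hZ : ¬ ∃ φ : Multiplicative (ℤ × ℤ) →* G, Injective φ) :
    ∃ h ∈ L, ∃ k ∈ L, (∀ x y : ℤ, x ≤ 0 → h (x, y) = k (x, y)) ∧ h (1, 0) ≠ k (1, 0) := by
  obtain ⟨f, hf⟩ := hne
  obtain ⟨h, hh, k, hk, h1, h2⟩ := up_pair hA (hL.tr sym_swap) ⟨fun z => f (z.2, z.1), hf⟩ hZ
  exact ⟨_, hh, _, hk, fun x y hx => h1 y x hx, h2⟩

/-- corners of separation at every scale -/
theorem ne_scale (hA : Act G Γ) {L : Set (ℤ × ℤ → V)} (hL : IsMin G Γ L)
    (hZ : ¬ ∃ φ : Multiplicative (ℤ × ℤ) →* G, Injective φ) (R : ℕ) :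
    ∃ h ∈ L, ∃ k ∈ L, (∀ x y : ℤ, -(R : ℤ) ≤ x → x ≤ 0 → -(R : ℤ) ≤ y → y ≤ 0 →
      h (x, y) = k (x, y)) ∧ h (1, 0) ≠ k (1, 0) ∧ h (0, 1) ≠ k (0, 1) := by
  by_contra hcon
  push Not at hcon
  have hS := hL.sys
  obtain ⟨u₁, hu₁, u₂, hu₂, hu, hu'⟩ := up_pair hA hS hL.ne hZ
  obtain ⟨r₁, hr₁, r₂, hr₂, hr, hr'⟩ := right_pair hA hS hL.ne hZ
  obtain ⟨n, hn⟩ := hL.recur hA hu₁ hr₁ (R + 1)
  obtain ⟨⟨c, b⟩, hb1, hb2, g, hg⟩ := hn (0, -n)
  simp only [] at hb1 hb2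
  have hb : b ≤ 0 := by omega
  obtain ⟨q, hq⟩ : ∃ q : ℤ × ℤ → V, q = fun z => g⁻¹ • r₂ (z + (-c, -b)) := ⟨_, rfl⟩
  have hqL : q ∈ L := by rw [hq]; exact hS.mv r₂ hr₂ g⁻¹ (-c, -b)
  have hu1 : ∀ x y : ℤ, (x - c).natAbs ≤ R + 1 → (y - b).natAbs ≤ R + 1 →
      u₁ (x, y) = g⁻¹ • r₁ (x - c, y - b) := by
    intro x y h1 h2
    rw [← hg (x - c, y - b) h1 h2]
    simp
  have hq1 : ∀ x y : ℤ, q (x, y) = g⁻¹ • r₂ (x - c, y - b) := by
    intro x y
    rw [hq]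
    simp [sub_eq_add_neg]
  have hqne : q (c + 1, b) ≠ u₁ (c + 1, b) := by
    rw [hq1, hu1 _ _ (by omega) (by omega)]
    intro h
    apply hr'
    have := smul_left_cancel _ h
    simpa using this.symm
  have key : ∀ n : ℕ, ∀ x y : ℤ, c - R ≤ x → x ≤ c → b - R ≤ y → y ≤ b + n →
      q (x, y) = u₁ (x, y) := by
    intro n
    induction n with
    | zero =>
      intro x y h1 h2 h3 h4
      rw [hq1, hu1 _ _ (by omega) (by omega), hr _ _ (by omega)]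
    | succ n ih =>
      have e0 : q (c + 1, b + n) ≠ u₁ (c + 1, b + n) := by
        intro h
        apply hqne
        exact col_prop hA.med (hS.flat q hqL) (hS.flat u₁ hu₁) (x := c) (x' := c + 1) (by simp)
          (S := Set.Icc (b - R) (b + n)) Set.ordConnected_Icc
          (fun y hy => ih c y (by omega) le_rfl hy.1 hy.2) (y₀ := b + n) ⟨by omega, le_rfl⟩ h b
          ⟨by omega, by omega⟩
      have e := hcon _ (hS.mv q hqL 1 (c, b + n)) _ (hS.mv u₁ hu₁ 1 (c, b + n)) (by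
        intro x y h1 h2 h3 h4
        simp only [one_smul, Prod.mk_add_mk]
        exact ih _ _ (by omega) (by omega) (by omega) (by omega)) (by
        simp only [one_smul, Prod.mk_add_mk, zero_add]
        rw [add_comm 1 c]
        exact e0)
      simp only [one_smul, Prod.mk_add_mk, zero_add] at e
      have e2 := row_prop hA.med (hS.flat q hqL) (hS.flat u₁ hu₁) (y := b + n)
        (y' := 1 + (b + n)) (by simp) (S := Set.Icc (c - R) c) Set.ordConnected_Icc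
        (fun x hx => ih x _ hx.1 hx.2 (by omega) le_rfl) (x₀ := c) ⟨by omega, le_rfl⟩ e
      intro x y h1 h2 h3 h4
      rcases (show y ≤ b + n ∨ y = 1 + (b + n) by push_cast at h4; omega) with h5 | rfl
      · exact ih x y h1 h2 h3 h5
      · exact e2 x ⟨h1, h2⟩
  have key2 : ∀ x y : ℤ, c - R ≤ x → x ≤ c → b - R ≤ y → q (x, y) = u₁ (x, y) :=
    fun x y h1 h2 h3 => key (y - b).toNat x y h1 h2 h3 (by omega)
  have e0 : q (c + 1, 0) ≠ u₂ (c + 1, 0) := by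
    rw [← hu (c + 1) 0 le_rfl]
    intro h
    apply hqne
    exact col_prop hA.med (hS.flat q hqL) (hS.flat u₁ hu₁) (x := c) (x' := c + 1) (by simp)
      (S := Set.Ici (b - R)) Set.ordConnected_Ici
      (fun y hy => key2 c y (by omega) le_rfl hy) (y₀ := 0)
      (by simp only [Set.mem_Ici]; omega) h b (by simp only [Set.mem_Ici]; omega)
  have e := hcon _ (hS.mv q hqL 1 (c, 0)) _ (hS.mv u₂ hu₂ 1 (c, 0)) (by
    intro x y h1 h2 h3 h4
    simp only [one_smul, Prod.mk_add_mk, add_zero]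
    rw [← hu _ _ h4]
    exact key2 _ _ (by omega) (by omega) (by omega)) (by
    simp only [one_smul, Prod.mk_add_mk, zero_add]
    rw [add_comm 1 c]
    exact e0)
  simp only [one_smul, Prod.mk_add_mk, zero_add, add_zero] at e
  rw [key2 c 1 (by omega) le_rfl (by omega)] at e
  apply hu'
  exact row_prop hA.med (hS.flat u₁ hu₁) (hS.flat u₂ hu₂) (y := 0) (y' := 1) (by simp)
    (S := Set.univ) Set.ordConnected_univ (fun x _ => hu x 0 le_rfl) (x₀ := c) trivial e 0 trivial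

theorem ne_pair (hA : Act G Γ) {L : Set (ℤ × ℤ → V)} (hL : IsMin G Γ L)
    (hZ : ¬ ∃ φ : Multiplicative (ℤ × ℤ) →* G, Injective φ) :
    ∃ h ∈ L, ∃ k ∈ L, (∀ x y : ℤ, x ≤ 0 → y ≤ 0 → h (x, y) = k (x, y)) ∧
      h (1, 0) ≠ k (1, 0) ∧ h (0, 1) ≠ k (0, 1) := by
  choose h hh k hk hag hne hne' using ne_scale hA hL hZ
  obtain ⟨h', hh', k', hk', hlim⟩ := hL.sys.limit hA h k hh hk
    (fun n => hag n 0 0 (by omega) le_rfl (by omega) le_rfl)
  refine ⟨h', hh', k', hk', fun x y hx hy => ?_, ?_, ?_⟩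
  · obtain ⟨n, hn, g, hg⟩ := hlim (x.natAbs + y.natAbs) (x.natAbs + y.natAbs)
    obtain ⟨e1, e2⟩ := hg (x, y) (by simp only []; omega) (by simp only []; omega)
    rw [e1, e2, hag n x y (by omega) hx (by omega) hy]
  · obtain ⟨n, hn, g, hg⟩ := hlim 1 0
    obtain ⟨e1, e2⟩ := hg (1, 0) (by simp) (by simp)
    rw [e1, e2]
    exact fun h => hne n (smul_left_cancel g h)
  · obtain ⟨n, hn, g, hg⟩ := hlim 1 0
    obtain ⟨e1, e2⟩ := hg (0, 1) (by simp) (by simp)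
    rw [e1, e2]
    exact fun h => hne' n (smul_left_cancel g h)

theorem sw_pair (hA : Act G Γ) {L : Set (ℤ × ℤ → V)} (hL : IsMin G Γ L)
    (hZ : ¬ ∃ φ : Multiplicative (ℤ × ℤ) →* G, Injective φ) :
    ∃ h ∈ L, ∃ k ∈ L, (∀ x y : ℤ, 0 ≤ x → 0 ≤ y → h (x, y) = k (x, y)) ∧
      h (-1, 0) ≠ k (-1, 0) ∧ h (0, -1) ≠ k (0, -1) := by
  obtain ⟨h, hh, k, hk, h1, h2, h3⟩ := ne_pair hA (hL.tr sym_neg) hZ
  refine ⟨_, hh, _, hk, fun x y hx hy => h1 (-x) (-y) (by omega) (by omega), ?_, ?_⟩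
  · simpa using h2
  · simpa using h3

end Pool.Agent.N47.SQ
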