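import Pool.Agent.N47.SQ.Pairs

/-!
# Finite rectangles of agreement
-/

set_option autoImplicit false

namespace Pool.Agent.N47.SQ

open Function Set

variable {V : Type*} {G : Type*} [Group G] [MulAction G V] {Γ : SimpleGraph V}

/-- agreement on two sides of a rectangle -/
theorem fill (hΓ : IsMedian Γ) {h k : ℤ × ℤ → V} (hh : IsFlat Γ h) (hk : IsFlat Γ k)
    {a b c d : ℤ} (h1 : ∀ x, a ≤ x → x ≤ b → h (x, c) = k (x, c))
    (h2 : ∀ y, c ≤ y → y ≤ d → h (a, y) = k (a, y)) :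
    ∀ x y, a ≤ x → x ≤ b → c ≤ y → y ≤ d → h (x, y) = k (x, y) := by
  have key : ∀ n : ℕ, a + n ≤ b → ∀ y, c ≤ y → y ≤ d → h (a + n, y) = k (a + n, y) := by
    intro n
    induction n with
    | zero => intro _ y h3 h4; simpa using h2 y h3 h4
    | succ n ih =>
      intro hn y h3 h4
      have := col_prop hΓ hh hk (x := a + n) (x' := a + (n + 1 : ℕ)) (by
        rw [show a + (n : ℤ) - (a + (n + 1 : ℕ)) = -1 by push_cast; ring]; simp)
        (S := Set.Icc c d) Set.ordConnected_Icc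
        (fun y hy => ih (by omega) y hy.1 hy.2) (y₀ := c) ⟨le_rfl, by omega⟩
        (h1 _ (by omega) hn)
      exact this y ⟨h3, h4⟩
  intro x y h3 h4 h5 h6
  have := key (x - a).toNat (by omega) y h5 h6
  rw [show a + ((x - a).toNat : ℤ) = x by omega] at this
  exact this

/-- no pair of flats of the family separates exactly at a rectangle with sides at least `R` -/
def NoRect (Γ : SimpleGraph V) (L : Set (ℤ × ℤ → V)) (R : ℕ) : Prop :=
  ∀ h ∈ L, ∀ k ∈ L, ∀ a b c d : ℤ, a + R ≤ b → c + R ≤ d → ¬ Ex Γ h k a b c d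

theorem long_side (hA : Act G Γ) {L : Set (ℤ × ℤ → V)} (hL : Sys G Γ L) {R : ℕ} (hR : 1 ≤ R)
    (hN : NoRect Γ L R) {h k : ℤ × ℤ → V} (hh : h ∈ L) (hk : k ∈ L) {a c : ℤ}
    (hag : ∀ x y : ℤ, a ≤ x → x ≤ a + R → c ≤ y → y ≤ c + R → h (x, y) = k (x, y))
    (h1 : h (a - 1, c) ≠ k (a - 1, c)) (h2 : h (a, c - 1) ≠ k (a, c - 1)) :
    (∀ x y : ℤ, a ≤ x → c ≤ y → y ≤ c + R → h (x, y) = k (x, y)) ∨
      (∀ x y : ℤ, a ≤ x → x ≤ a + R → c ≤ y → h (x, y) = k (x, y)) := by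
  classical
  have hhf := hL.flat h hh
  have hkf := hL.flat k hk
  by_cases e1 : ∃ n : ℕ, h (a + n, c) ≠ k (a + n, c)
  · by_cases e2 : ∃ n : ℕ, h (a, c + n) ≠ k (a, c + n)
    · exfalso
      have s1 := Nat.find_spec e1
      have m1 : ∀ j : ℕ, j < Nat.find e1 → h (a + j, c) = k (a + j, c) := fun j hj =>
        not_not.1 (Nat.find_min e1 hj)
      have s2 := Nat.find_spec e2
      have m2 : ∀ j : ℕ, j < Nat.find e2 → h (a, c + j) = k (a, c + j) := fun j hj =>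
        not_not.1 (Nat.find_min e2 hj)
      set n₁ := Nat.find e1
      set n₂ := Nat.find e2
      have l1 : R < n₁ := by
        by_contra hc
        exact s1 (hag _ _ (by omega) (by omega) (by omega) (by omega))
      have l2 : R < n₂ := by
        by_contra hc
        exact s2 (hag _ _ (by omega) (by omega) (by omega) (by omega))
      refine hN h hh k hk a (a + n₁ - 1) c (c + n₂ - 1) (by omega) (by omega)
        (Ex.mk' hA.med hhf hkf (by omega) (by omega) ?_ h1 ?_ h2 ?_)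
      · apply fill hA.med hhf hkf
        · intro x h3 h4
          have := m1 (x - a).toNat (by omega)
          rwa [show a + ((x - a).toNat : ℤ) = x by omega] at this
        · intro y h3 h4
          have := m2 (y - c).toNat (by omega)
          rwa [show c + ((y - c).toNat : ℤ) = y by omega] at this
      · rw [show a + (n₁ : ℤ) - 1 + 1 = a + n₁ by ring]; exact s1
      · rw [show c + (n₂ : ℤ) - 1 + 1 = c + n₂ by ring]; exact s2
    · right
      push Not at e2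
      intro x y h3 h4 h5
      refine fill hA.med hhf hkf (b := a + R) (d := y) (fun x h6 h7 =>
        hag x c h6 h7 le_rfl (by omega)) (fun y h6 h7 => ?_) x y h3 h4 h5 le_rfl
      have := e2 (y - c).toNat
      rwa [show c + ((y - c).toNat : ℤ) = y by omega] at this
  · left
    push Not at e1
    intro x y h3 h4 h5
    refine fill hA.med hhf hkf (b := x) (d := c + R) (fun x h6 h7 => ?_) (fun y h6 h7 =>
      hag a y le_rfl (by omega) h6 h7) x y h3 le_rfl h4 h5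
    have := e1 (x - a).toNat
    rwa [show a + ((x - a).toNat : ℤ) = x by omega] at this

/-- the behaviour of a third flat near a corner of separation -/
theorem lemZ (hA : Act G Γ) {L : Set (ℤ × ℤ → V)} (hL : Sys G Γ L) {R : ℕ} (hR : 1 ≤ R)
    (hN : NoRect Γ L R) {k m q : ℤ × ℤ → V} (hk : k ∈ L) (hm : m ∈ L) (hq : q ∈ L)
    {a c X Y : ℤ} (ha : a + R ≤ X) (hc : c + R ≤ Y)
    (hkm : ∀ x y : ℤ, a - 1 ≤ x → x ≤ X → c - 1 ≤ y → y ≤ Y → k (x, y) = m (x, y))
    (h1 : k (X + 1, Y) ≠ m (X + 1, Y)) (h2 : k (X, Y + 1) ≠ m (X, Y + 1))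
    (hqk : ∀ x y : ℤ, a ≤ x → x ≤ a + R → c ≤ y → y ≤ c + R → q (x, y) = k (x, y))
    (h3 : q (a - 1, c) ≠ k (a - 1, c)) (h4 : q (a, c - 1) ≠ k (a, c - 1)) :
    ((∀ x y : ℤ, a ≤ x → c ≤ y → y ≤ Y → q (x, y) = k (x, y)) ∧ q (a, Y + 1) ≠ k (a, Y + 1)) ∨
      ((∀ x y : ℤ, a ≤ x → x ≤ X → c ≤ y → q (x, y) = k (x, y)) ∧
        q (X + 1, c) ≠ k (X + 1, c)) := by
  have hkf := hL.flat k hk
  have hmf := hL.flat m hm
  have hqf := hL.flat q hq
  have hqm : ∀ x y : ℤ, a ≤ x → x ≤ a + R → c ≤ y → y ≤ c + R → q (x, y) = m (x, y) :=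
    fun x y h5 h6 h7 h8 => by
      rw [hqk x y h5 h6 h7 h8, hkm x y (by omega) (by omega) (by omega) (by omega)]
  have h3' : q (a - 1, c) ≠ m (a - 1, c) := by
    rw [← hkm _ _ le_rfl (by omega) (by omega) (by omega)]; exact h3
  have h4' : q (a, c - 1) ≠ m (a, c - 1) := by
    rw [← hkm _ _ (by omega) (by omega) le_rfl (by omega)]; exact h4
  have g1 : k (X + 1, c) ≠ m (X + 1, c) := by
    intro h
    apply h1
    exact col_prop hA.med hkf hmf (x := X) (x' := X + 1) (by simp) (S := Set.Icc c Y)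
      Set.ordConnected_Icc (fun y hy => hkm X y (by omega) le_rfl (by have := hy.1; omega) hy.2)
      (y₀ := c) ⟨le_rfl, by omega⟩ h Y ⟨by omega, le_rfl⟩
  have g2 : k (a, Y + 1) ≠ m (a, Y + 1) := by
    intro h
    apply h2
    exact row_prop hA.med hkf hmf (y := Y) (y' := Y + 1) (by simp) (S := Set.Icc a X)
      Set.ordConnected_Icc (fun x hx => hkm x Y (by have := hx.1; omega) hx.2 (by omega) le_rfl)
      (x₀ := a) ⟨le_rfl, by omega⟩ h X ⟨by omega, le_rfl⟩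
  have alt := long_side hA hL hR hN hq hm hqm h3' h4'
  rcases long_side hA hL hR hN hq hk hqk h3 h4 with H | H
  · left
    rcases alt with H' | H'
    · exact absurd ((H (X + 1) c (by omega) le_rfl (by omega)).symm.trans
        (H' (X + 1) c (by omega) le_rfl (by omega))) g1
    · refine ⟨fun x y h5 h6 h7 => ?_, ?_⟩
      · refine fill hA.med hqf hkf (b := x) (d := Y) (fun x h8 h9 => H x c h8 le_rfl (by omega))
          (fun y h8 h9 => ?_) x y h5 le_rfl h6 h7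
        rw [H' a y le_rfl (by omega) h8, hkm a y (by omega) (by omega) (by omega) h9]
      · rw [H' a (Y + 1) le_rfl (by omega) (by omega)]
        exact fun h => g2 h.symm
  · right
    rcases alt with H' | H'
    · refine ⟨fun x y h5 h6 h7 => ?_, ?_⟩
      · refine fill hA.med hqf hkf (b := X) (d := y) (fun x h8 h9 => ?_)
          (fun y h8 h9 => H a y le_rfl (by omega) h8) x y h5 h6 h7 le_rfl
        rw [H' x c h8 le_rfl (by omega), hkm x c (by omega) h9 (by omega) (by omega)]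
      · rw [H' (X + 1) c (by omega) le_rfl (by omega)]
        exact fun h => g1 h.symm
    · exact absurd ((H a (Y + 1) le_rfl (by omega) (by omega)).symm.trans
        (H' a (Y + 1) le_rfl (by omega) (by omega))) g2

/-- two flats which separate exactly at a large rectangle -/
theorem exists_rect (hA : Act G Γ) {L : Set (ℤ × ℤ → V)} (hL : IsMin G Γ L)
    (hZ : ¬ ∃ φ : Multiplicative (ℤ × ℤ) →* G, Injective φ) {R : ℕ} (hR : 1 ≤ R) :
    ∃ h ∈ L, ∃ k ∈ L, ∃ a b c d : ℤ, a + R ≤ b ∧ c + R ≤ d ∧ Ex Γ h k a b c d := by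
  by_contra hcon
  have hN : NoRect Γ L R := fun h hh k hk a b c d h1 h2 h3 =>
    hcon ⟨h, hh, k, hk, a, b, c, d, h1, h2, h3⟩
  have hS := hL.sys
  obtain ⟨k₁, hk₁, k₂, hk₂, hk12, hk1, hk2⟩ := ne_pair hA hL hZ
  obtain ⟨l₁, hl₁, l₂, hl₂, hl12, hl1, hl2⟩ := sw_pair hA hL hZ
  obtain ⟨n, hn⟩ := hL.recur hA hk₁ hl₁ (R + 1)
  obtain ⟨⟨c', b'⟩, hb1, hb2, g, hg⟩ := hn (-(n + R + 2), -(n + R + 2))
  simp only [] at hb1 hb2
  have hc' : c' ≤ -R - 2 := by omega
  have hb' : b' ≤ -R - 2 := by omega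
  obtain ⟨q, hq⟩ : ∃ q : ℤ × ℤ → V, q = fun z => g⁻¹ • l₂ (z + (-c', -b')) := ⟨_, rfl⟩
  have hqL : q ∈ L := by rw [hq]; exact hS.mv l₂ hl₂ g⁻¹ (-c', -b')
  have hq1 : ∀ x y : ℤ, q (x, y) = g⁻¹ • l₂ (x - c', y - b') := by
    intro x y
    rw [hq]
    simp [sub_eq_add_neg]
  have hk1' : ∀ x y : ℤ, (x - c').natAbs ≤ R + 1 → (y - b').natAbs ≤ R + 1 →
      k₁ (x, y) = g⁻¹ • l₁ (x - c', y - b') := by
    intro x y h1 h2
    rw [← hg (x - c', y - b') h1 h2]
    simp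
  -- the properties of `q` near `(c', b')`
  have q1 : ∀ x y : ℤ, c' ≤ x → x ≤ c' + R → b' ≤ y → y ≤ b' + R → q (x, y) = k₁ (x, y) := by
    intro x y h1 h2 h3 h4
    rw [hq1, hk1' x y (by omega) (by omega), hl12 _ _ (by omega) (by omega)]
  have q2 : q (c' - 1, b') ≠ k₁ (c' - 1, b') := by
    rw [hq1, hk1' _ _ (by omega) (by omega)]
    intro h
    apply hl1
    have := smul_left_cancel _ h
    simpa using this.symm
  have q3 : q (c', b' - 1) ≠ k₁ (c', b' - 1) := by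
    rw [hq1, hk1' _ _ (by omega) (by omega)]
    intro h
    apply hl2
    have := smul_left_cancel _ h
    simpa using this.symm
  obtain ⟨n₂, hn₂⟩ := hL.recur hA hk₁ hk₁ (c'.natAbs + b'.natAbs + 1)
  obtain ⟨⟨c₂, b₂⟩, hb3, hb4, g₂, hg₂⟩ := hn₂ (-(n₂ + 1), -(n₂ + 1))
  simp only [] at hb3 hb4
  have hc₂ : c₂ ≤ -1 := by omega
  have hb₂ : b₂ ≤ -1 := by omega
  have hk2' : ∀ x y : ℤ, (x - c₂).natAbs ≤ c'.natAbs + b'.natAbs + 1 →
      (y - b₂).natAbs ≤ c'.natAbs + b'.natAbs + 1 →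
      k₁ (x, y) = g₂⁻¹ • k₁ (x - c₂, y - b₂) := by
    intro x y h1 h2
    rw [← hg₂ (x - c₂, y - b₂) h1 h2]
    simp
  obtain ⟨q', hq'⟩ : ∃ q' : ℤ × ℤ → V, q' = fun z => g₂⁻¹ • q (z + (-c₂, -b₂)) := ⟨_, rfl⟩
  have hqL' : q' ∈ L := by rw [hq']; exact hS.mv q hqL g₂⁻¹ (-c₂, -b₂)
  have hq1' : ∀ x y : ℤ, q' (x, y) = g₂⁻¹ • q (x - c₂, y - b₂) := by
    intro x y
    rw [hq']
    simp [sub_eq_add_neg]
  obtain ⟨m, hm⟩ : ∃ m : ℤ × ℤ → V, m = fun z => g₂⁻¹ • k₂ (z + (-c₂, -b₂)) := ⟨_, rfl⟩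
  have hmL : m ∈ L := by rw [hm]; exact hS.mv k₂ hk₂ g₂⁻¹ (-c₂, -b₂)
  have hm1 : ∀ x y : ℤ, m (x, y) = g₂⁻¹ • k₂ (x - c₂, y - b₂) := by
    intro x y
    rw [hm]
    simp [sub_eq_add_neg]
  -- the properties of `q'`
  have p1 : ∀ x y : ℤ, c₂ + c' ≤ x → x ≤ c₂ + c' + R → b₂ + b' ≤ y → y ≤ b₂ + b' + R →
      q' (x, y) = k₁ (x, y) := by
    intro x y h1 h2 h3 h4
    rw [hq1', hk2' x y (by omega) (by omega), q1 _ _ (by omega) (by omega) (by omega) (by omega)]
  have p2 : q' (c₂ + c' - 1, b₂ + b') ≠ k₁ (c₂ + c' - 1, b₂ + b') := by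
    rw [hq1', hk2' _ _ (by omega) (by omega)]
    intro h
    apply q2
    have := smul_left_cancel _ h
    rw [show c₂ + c' - 1 - c₂ = c' - 1 by ring, show b₂ + b' - b₂ = b' by ring] at this
    exact this
  have p3 : q' (c₂ + c', b₂ + b' - 1) ≠ k₁ (c₂ + c', b₂ + b' - 1) := by
    rw [hq1', hk2' _ _ (by omega) (by omega)]
    intro h
    apply q3
    have := smul_left_cancel _ h
    rw [show c₂ + c' - c₂ = c' by ring, show b₂ + b' - 1 - b₂ = b' - 1 by ring] at this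
    exact this
  have z1 := lemZ hA hS hR hN hk₁ hk₂ hqL' (a := c₂ + c') (c := b₂ + b') (X := 0) (Y := 0)
    (by omega) (by omega) (fun x y _ h2 _ h4 => hk12 x y h2 h4) hk1 hk2 p1 p2 p3
  have z2 := lemZ hA hS hR hN hk₁ hmL hqL' (a := c₂ + c') (c := b₂ + b') (X := c₂) (Y := b₂)
    (by omega) (by omega) (fun x y h1 h2 h3 h4 => by
      rw [hm1, hk2' x y (by omega) (by omega), hk12 _ _ (by omega) (by omega)])
    (by
      rw [hm1, hk2' _ _ (by omega) (by omega)]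
      intro h
      apply hk1
      have := smul_left_cancel _ h
      simpa using this)
    (by
      rw [hm1, hk2' _ _ (by omega) (by omega)]
      intro h
      apply hk2
      have := smul_left_cancel _ h
      simpa using this) p1 p2 p3
  rcases z1 with ⟨z1, -⟩ | ⟨z1, -⟩
  · rcases z2 with ⟨-, z2⟩ | ⟨-, z2⟩
    · exact z2 (z1 _ _ le_rfl (by omega) (by omega))
    · exact z2 (z1 _ _ (by omega) le_rfl (by omega))
  · rcases z2 with ⟨-, z2⟩ | ⟨-, z2⟩
    · exact z2 (z1 _ _ le_rfl (by omega) (by omega))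
    · exact z2 (z1 _ _ (by omega) (by omega) le_rfl)

end Pool.Agent.N47.SQ
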